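import Mathlib
import Pool.Agent.H64.KExpFinal

/-!
# The strip-invariant sets of real exponential maps are homeomorphic

For real `λ > 1/e` let `K_λ` be the set of the points whose orbit under `z ↦ λ e^z` stays in the strip
`0 ≤ Im z ≤ π`, and let `K_λ ∪ {∞}` be its closure in the Riemann sphere.  For all `λ, μ > 1/e` there is
a homeomorphism of `K_λ ∪ {∞}` onto `K_μ ∪ {∞}`, and it can be chosen to map `∞` to `∞` (so that it
restricts to a homeomorphism of `K_λ` onto `K_μ`).
-/

set_option autoImplicit false

open Topology OnePoint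

namespace Pool.Agent.Results.MP_f65db9_an.StripSets

/-- The exponential map `z ↦ λ e^z`. -/
noncomputable def E (lam : ℝ) (z : ℂ) : ℂ := (lam : ℂ) * Complex.exp z

/-- `K_λ`: the points whose whole forward orbit stays in the closed strip `0 ≤ Im z ≤ π`. -/
def K (lam : ℝ) : Set ℂ := {z | ∀ n : ℕ, 0 ≤ ((E lam)^[n] z).im ∧ ((E lam)^[n] z).im ≤ Real.pi}

/-- `K_λ` as a subset of the Riemann sphere `ℂ ∪ {∞}`. -/
def Ksph (lam : ℝ) : Set (OnePoint ℂ) := {x | ∃ z ∈ K lam, x = (z : OnePoint ℂ)}

/-- The closure of `K_λ` in the Riemann sphere. -/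
def Khat (lam : ℝ) : Set (OnePoint ℂ) := closure (Ksph lam)

theorem K_eq (lam : ℝ) : K lam = Pool.Agent.H64.KExp.K lam := rfl

theorem Ksph_eq (lam : ℝ) : Ksph lam = (fun z : ℂ => (z : OnePoint ℂ)) '' K lam := by
  ext x
  constructor
  · rintro ⟨z, hz, rfl⟩
    exact ⟨z, hz, rfl⟩
  · rintro ⟨z, hz, rfl⟩
    exact ⟨z, hz, rfl⟩

theorem K_closed (lam : ℝ) : IsClosed (K lam) := Pool.Agent.H64.KExp.K_isClosed lam

theorem real_mem (lam x : ℝ) : (x : ℂ) ∈ K lam := Pool.Agent.H64.KExp.K_ofReal lam x

theorem K_not_compact (lam : ℝ) : ¬ IsCompact (K lam) := by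
  intro h
  obtain ⟨R, hR⟩ := h.isBounded.exists_norm_le
  have h1 := hR ((|R| + 1 : ℝ) : ℂ) (real_mem lam _)
  rw [Complex.norm_real, Real.norm_of_nonneg (by positivity)] at h1
  linarith [le_abs_self R]

/-- The map of the one-point compactification of `K_λ` to the sphere. -/
def inc (lam : ℝ) : OnePoint (K lam) → OnePoint ℂ := OnePoint.map (fun z : K lam => (z : ℂ))

theorem inc_cont (lam : ℝ) : Continuous (inc lam) := by
  apply OnePoint.continuous_map continuous_subtype_val
  rw [Filter.coclosedCompact_eq_cocompact, Filter.coclosedCompact_eq_cocompact]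
  exact (K_closed lam).isClosedEmbedding_subtypeVal.tendsto_cocompact

theorem inc_inj (lam : ℝ) : Function.Injective (inc lam) := by
  intro x y h
  induction x using OnePoint.rec with
  | infty =>
    induction y using OnePoint.rec with
    | infty => rfl
    | coe y =>
      unfold inc at h
      rw [OnePoint.map_infty, OnePoint.map_some] at h
      exact absurd h (OnePoint.infty_ne_coe _)
  | coe x =>
    induction y using OnePoint.rec with
    | infty =>
      unfold inc at h
      rw [OnePoint.map_infty, OnePoint.map_some] at h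
      exact absurd h (OnePoint.coe_ne_infty _)
    | coe y =>
      unfold inc at h
      rw [OnePoint.map_some, OnePoint.map_some] at h
      rw [Subtype.ext (OnePoint.coe_injective h)]

theorem range_inc (lam : ℝ) : Set.range (inc lam) = insert ∞ (Ksph lam) := by
  ext x
  constructor
  · rintro ⟨y, rfl⟩
    induction y using OnePoint.rec with
    | infty => exact Or.inl rfl
    | coe y => exact Or.inr ⟨y, y.2, rfl⟩
  · rintro (rfl | ⟨z, hz, rfl⟩)
    · exact ⟨∞, rfl⟩
    · exact ⟨((⟨z, hz⟩ : K lam) : OnePoint (K lam)), rfl⟩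

theorem emb (lam : ℝ) : IsClosedEmbedding (inc lam) := (inc_cont lam).isClosedEmbedding (inc_inj lam)

/-- The closure is `K_λ ∪ {∞}`. -/
theorem khat_eq (lam : ℝ) : Khat lam = insert ∞ (Ksph lam) := by
  have h1 : IsClosed (insert ∞ (Ksph lam)) := by
    rw [← range_inc]
    exact (emb lam).isClosed_range
  have h2 : Khat lam ⊆ insert ∞ (Ksph lam) := closure_minimal (Set.subset_insert _ _) h1
  refine Set.Subset.antisymm h2 ?_
  rintro x (rfl | hx)
  · by_contra hinf
    have h3 : Khat lam = Ksph lam := by
      apply Set.Subset.antisymm _ subset_closure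
      intro y hy
      rcases h2 hy with rfl | h
      · exact absurd hy hinf
      · exact h
    have h4 : IsClosed ((fun z : ℂ => (z : OnePoint ℂ)) '' K lam) := by
      rw [← Ksph_eq, ← h3]
      exact isClosed_closure
    exact K_not_compact lam (OnePoint.isClosed_image_coe.1 h4).2
  · exact subset_closure hx

theorem range_inc' (lam : ℝ) : Set.range (inc lam) = Khat lam := by rw [range_inc, khat_eq]

/-- The one-point compactification of `K_λ` is the closure in the sphere. -/
noncomputable def equ (lam : ℝ) : OnePoint (K lam) ≃ₜ Khat lam :=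
  (emb lam).toIsEmbedding.toHomeomorph.trans (Homeomorph.setCongr (range_inc' lam))

theorem equ_val (lam : ℝ) (x : OnePoint (K lam)) : (equ lam x : OnePoint ℂ) = inc lam x := rfl

theorem inc_infty (lam : ℝ) (x : OnePoint (K lam)) : inc lam x = ∞ ↔ x = ∞ := by
  constructor
  · intro h
    exact inc_inj lam (h.trans rfl)
  · rintro rfl
    rfl

/-- For all `λ, μ > 1/e` there is a homeomorphism of the closure of `K_λ` in the Riemann sphere onto
the closure of `K_μ`, which maps `∞`, and only `∞`, to `∞`.  (By `khat_eq` the closure is `K_λ ∪ {∞}`.) -/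
theorem result (lam mu : ℝ) (h1 : 1 / Real.exp 1 < lam) (h2 : 1 / Real.exp 1 < mu) :
    ∃ F : Khat lam ≃ₜ Khat mu, ∀ x : Khat lam, (F x : OnePoint ℂ) = ∞ ↔ (x : OnePoint ℂ) = ∞ := by
  obtain ⟨e⟩ := Pool.Agent.H64.KExp.homeo h1 h2
  let e' : K lam ≃ₜ K mu := e
  refine ⟨((equ lam).symm.trans e'.onePointCongr).trans (equ mu), ?_⟩
  intro x
  obtain ⟨y, rfl⟩ := (equ lam).surjective x
  have h3 : ((equ lam).symm.trans e'.onePointCongr).trans (equ mu) (equ lam y) =
      equ mu (e'.onePointCongr y) := by
    simp
  rw [h3, equ_val, equ_val, inc_infty, inc_infty]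
  induction y using OnePoint.rec with
  | infty => exact ⟨fun _ => rfl, fun _ => rfl⟩
  | coe y =>
    constructor
    · intro h
      exact absurd h (OnePoint.coe_ne_infty (e' y))
    · intro h
      exact absurd h (OnePoint.coe_ne_infty y)

end Pool.Agent.Results.MP_f65db9_an.StripSets
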